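import Pool.Agent.Lib.MP_e65231_co.Final

/-!
# The poset of Hamiltonian graphs is Sperner for all large n (MP_e65231_co)

For all sufficiently large `n`, every antichain (for inclusion) of Hamiltonian graphs on `Fin n` has
at most as many members as there are Hamiltonian graphs with exactly `⌈N/2⌉` edges, `N = C(n,2)`.
-/

namespace Pool.Agent.Results.MP_e65231_co.SpernerLarge

open scoped Classical in
theorem result : ∃ n₀ : ℕ, ∀ n ≥ n₀, ∀ A : Finset (SimpleGraph (Fin n)),
    (∀ G ∈ A, G.IsHamiltonian) → IsAntichain (· ≤ ·) (A : Set (SimpleGraph (Fin n))) →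
      A.card ≤ (Finset.univ.filter (fun G : SimpleGraph (Fin n) =>
        G.IsHamiltonian ∧ G.edgeFinset.card = (n.choose 2 + 1) / 2)).card :=
  Pool.Agent.HamSp.main

end Pool.Agent.Results.MP_e65231_co.SpernerLarge
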